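import Pool.Agent.H16.InnHNN

/-!
# Inner automorphisms by elements of free factors as centralizers of finite sets
-/

set_option autoImplicit false

namespace Pool.Agent.H16.Inn

universe u

variable {β : Type u}

open HNNExtension

/-! ### The decomposition `F(β) = F(β ∖ {b}) * ⟨b⟩` -/

/-- The hom to the HNN extension. -/
noncomputable def toP [DecidableEq β] (b : β) : FreeGroup β →* P (FreeGroup {i // i ≠ b}) :=
  FreeGroup.lift fun i => if h : i = b then t else of (FreeGroup.of ⟨i, h⟩)

/-- The hom from the HNN extension. -/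
noncomputable def ofP (b : β) : P (FreeGroup {i // i ≠ b}) →* FreeGroup β :=
  HNNExtension.lift (FreeGroup.lift fun i => FreeGroup.of i.1) (FreeGroup.of b) (fun a => by
    have ha : (a : FreeGroup {i // i ≠ b}) = 1 := Subgroup.mem_bot.1 a.2
    have ha' : ((MulEquiv.refl (⊥ : Subgroup (FreeGroup {i // i ≠ b})) a :
      (⊥ : Subgroup (FreeGroup {i // i ≠ b}))) : FreeGroup {i // i ≠ b}) = 1 := ha
    rw [ha, ha', map_one, mul_one, one_mul])

variable [DecidableEq β]

theorem toP_self (b : β) : toP b (FreeGroup.of b) = t := by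
  rw [toP, FreeGroup.lift_apply_of, dif_pos rfl]

theorem toP_of (b i : β) (h : i ≠ b) : toP b (FreeGroup.of i) = of (FreeGroup.of ⟨i, h⟩) := by
  rw [toP, FreeGroup.lift_apply_of, dif_neg h]

omit [DecidableEq β] in
theorem ofP_t (b : β) : ofP b t = FreeGroup.of b := lift_t _ _ _

omit [DecidableEq β] in
theorem ofP_of (b : β) (i : {i // i ≠ b}) : ofP b (of (FreeGroup.of i)) = FreeGroup.of i.1 := by
  rw [ofP, lift_of, FreeGroup.lift_apply_of]

/-- The decomposition. -/
noncomputable def eqv (b : β) : FreeGroup β ≃* P (FreeGroup {i // i ≠ b}) :=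
  MonoidHom.toMulEquiv (toP b) (ofP b)
    (by
      ext i
      by_cases h : i = b
      · subst h
        simp [toP_self, ofP_t]
      · simp [toP_of _ _ h, ofP_of])
    (by
      apply hom_ext
      · ext i
        simp [ofP_of, toP_of _ _ i.2]
      · simp [ofP_t, toP_self])

theorem eqv_self (b : β) : eqv b (FreeGroup.of b) = t := toP_self b

theorem eqv_of (b i : β) (h : i ≠ b) : eqv b (FreeGroup.of i) = of (FreeGroup.of ⟨i, h⟩) :=
  toP_of b i h

theorem eqv_symm_of (b : β) (i : {i // i ≠ b}) :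
    (eqv b).symm (of (FreeGroup.of i)) = FreeGroup.of i.1 := ofP_of b i

/-! ### The centre -/

theorem of_ne_one' {γ : Type u} (i : γ) : FreeGroup.of i ≠ (1 : FreeGroup γ) :=
  FreeGroup.of_ne_one i

/-- The centre of a free group with two generators is trivial. -/
theorem center_free {c d : β} (hcd : c ≠ d) {w : FreeGroup β}
    (hc : FreeGroup.of c * w = w * FreeGroup.of c) (hd : FreeGroup.of d * w = w * FreeGroup.of d) :
    w = 1 := by
  have h1 : of (FreeGroup.of ⟨c, hcd⟩) * eqv d w = eqv d w * of (FreeGroup.of ⟨c, hcd⟩) := by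
    rw [← eqv_of d c hcd, ← map_mul, hc, map_mul]
  have h2 : t * eqv d w = eqv d w * t := by
    rw [← eqv_self d, ← map_mul, hd, map_mul]
  have h3 := eq_one_of_comm (FreeGroup.of_ne_one _) h1 h2
  exact (MulEquiv.map_eq_one_iff (eqv d)).1 h3

theorem conj_injective {c d : β} (hcd : c ≠ d) {u v : FreeGroup β}
    (h : (MulAut.conj u : MulAut (FreeGroup β)) = MulAut.conj v) : u = v := by
  have h1 : ∀ w, w * (v⁻¹ * u) = (v⁻¹ * u) * w := by
    intro w
    have h2 := DFunLike.congr_fun h w
    rw [MulAut.conj_apply, MulAut.conj_apply] at h2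
    have h3 := congrArg (fun z => v⁻¹ * z * u) h2
    simpa [mul_assoc] using h3.symm
  have h4 := center_free hcd (h1 _) (h1 _)
  rw [inv_mul_eq_one] at h4
  exact h4.symm

/-! ### The finite sets -/

/-- The automorphism `b ↦ b⁻¹`. -/
noncomputable def thF (b : β) : MulAut (FreeGroup β) :=
  (MulAut.congr (eqv b)).symm (th _)

/-- The automorphism `b ↦ b i`. -/
noncomputable def RF (b : β) (i : {i // i ≠ b}) : MulAut (FreeGroup β) :=
  (MulAut.congr (eqv b)).symm (Rr (FreeGroup.of i))

/-- The set of these automorphisms. -/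
def SS (b : β) : Set (MulAut (FreeGroup β)) := insert (thF b) (Set.range (RF b))

theorem SS_finite [Finite β] (b : β) : (SS b).Finite :=
  (Set.finite_range _).insert _

theorem congr_symm_apply (b : β) (γ : MulAut (P (FreeGroup {i // i ≠ b}))) (w : FreeGroup β) :
    (MulAut.congr (eqv b)).symm γ w = (eqv b).symm (γ (eqv b w)) := rfl

theorem SS_fix (b i : β) (h : i ≠ b) {s : MulAut (FreeGroup β)} (hs : s ∈ SS b) :
    s (FreeGroup.of i) = FreeGroup.of i := by
  rcases hs with rfl | ⟨j, rfl⟩
  · rw [thF, congr_symm_apply, eqv_of b i h, th_apply, en_of, eqv_symm_of]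
  · rw [RF, congr_symm_apply, eqv_of b i h, Rr_apply, en_of, eqv_symm_of]

theorem eqv_symm_mem (b : β) (g : FreeGroup {i // i ≠ b}) :
    (eqv b).symm (of g) ∈ Subgroup.closure (FreeGroup.of '' {i | i ≠ b}) := by
  induction g using FreeGroup.induction_on with
  | C1 => rw [map_one, map_one]; exact one_mem _
  | of i =>
    rw [eqv_symm_of]
    exact Subgroup.subset_closure ⟨i.1, i.2, rfl⟩
  | inv_of i hi =>
    rw [map_inv, map_inv, eqv_symm_of]
    exact inv_mem (Subgroup.subset_closure ⟨i.1, i.2, rfl⟩)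
  | mul x y hx hy =>
    rw [map_mul, map_mul]
    exact mul_mem hx hy

/-- The centralizer of `SS b`. -/
theorem conj_of_SS (b : β) (hβ : ∃ c d : β, c ≠ b ∧ d ≠ b ∧ c ≠ d) (α : MulAut (FreeGroup β))
    (hα : ∀ s ∈ SS b, α * s = s * α) :
    ∃ u ∈ Subgroup.closure (FreeGroup.of '' {i | i ≠ b}), α = MulAut.conj u := by
  obtain ⟨c, d, hc, hd, hcd⟩ := hβ
  set α' : MulAut (P (FreeGroup {i // i ≠ b})) := MulAut.congr (eqv b) α with hα'
  have hα'' : α = (MulAut.congr (eqv b)).symm α' := by
    rw [hα', MulEquiv.symm_apply_apply]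
  have h1 : α' * th _ = th _ * α' := by
    have h2 := hα _ (Set.mem_insert (thF b) _)
    rw [thF, hα'', ← map_mul, ← map_mul] at h2
    exact (MulEquiv.injective _) h2
  have h2 : ∀ h, α' * Rr h = Rr h * α' := by
    intro h
    induction h using FreeGroup.induction_on with
    | C1 => rw [Rr_one, mul_one, one_mul]
    | of i =>
      have h2 := hα _ (Set.mem_insert_of_mem _ ⟨i, rfl⟩)
      rw [RF, hα'', ← map_mul, ← map_mul] at h2
      exact (MulEquiv.injective _) h2
    | inv_of i hi =>
      have h3 : Rr (FreeGroup.of i)⁻¹ = (Rr (FreeGroup.of i))⁻¹ := by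
        rw [eq_inv_iff_mul_eq_one, ← Rr_mul, inv_mul_cancel, Rr_one]
      rw [h3, eq_inv_mul_iff_mul_eq, ← mul_assoc, ← hi, mul_assoc, mul_inv_cancel, mul_one]
    | mul x y hx hy => rw [Rr_mul, ← mul_assoc, hx, mul_assoc, hy, mul_assoc]
  obtain ⟨g, hg⟩ := conj_of_comm (G := FreeGroup {i // i ≠ b})
    (fun w hw => center_free (c := (⟨c, hc⟩ : {i // i ≠ b})) (d := ⟨d, hd⟩)
      (fun h => hcd (congrArg Subtype.val h)) (hw _) (hw _))
    ⟨FreeGroup.of ⟨c, hc⟩, FreeGroup.of_ne_one _⟩ α' h1 h2
  refine ⟨(eqv b).symm (of g), eqv_symm_mem b g, ?_⟩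
  · rw [hα'', hg]
    apply MulEquiv.ext
    intro w
    rw [congr_symm_apply, MulAut.conj_apply, MulAut.conj_apply, map_mul, map_mul, map_inv,
      MulEquiv.symm_apply_apply, ← map_inv]

/-! ### Standard free factors -/

omit [DecidableEq β] in
/-- The standard free factor generated by the generators in `I`. -/
def HI (I : Set β) : Subgroup (FreeGroup β) := Subgroup.closure (FreeGroup.of '' I)

/-- Killing a generator. -/
noncomputable def kill (b : β) : FreeGroup β →* FreeGroup β :=
  FreeGroup.lift fun i => if i = b then 1 else FreeGroup.of i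

theorem kill_of (b i : β) : kill b (FreeGroup.of i) = if i = b then 1 else FreeGroup.of i :=
  FreeGroup.lift_apply_of

theorem kill_eq {b : β} {w : FreeGroup β} (hw : w ∈ HI {i | i ≠ b}) : kill b w = w := by
  have h1 : HI {i | i ≠ b} ≤ MonoidHom.eqLocus (kill b) (MonoidHom.id _) := by
    unfold HI
    rw [Subgroup.closure_le]
    rintro _ ⟨i, hi, rfl⟩
    change kill b (FreeGroup.of i) = FreeGroup.of i
    rw [kill_of, if_neg hi]
  exact h1 hw

theorem kill_mem {b : β} {I : Set β} {w : FreeGroup β} (hw : w ∈ HI I) :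
    kill b w ∈ HI (I \ {b}) := by
  have h1 : HI I ≤ (HI (I \ {b})).comap (kill b) := by
    unfold HI
    rw [Subgroup.closure_le]
    rintro _ ⟨i, hi, rfl⟩
    change kill b (FreeGroup.of i) ∈ HI (I \ {b})
    rw [kill_of]
    split_ifs with h
    · exact one_mem _
    · exact Subgroup.subset_closure ⟨i, ⟨hi, h⟩, rfl⟩
  exact h1 hw

theorem mem_HI_of (J : Finset β) (w : FreeGroup β) (h : ∀ b ∈ J, w ∈ HI {i | i ≠ b}) :
    w ∈ HI {i | i ∉ J} := by
  induction J using Finset.induction_on with
  | empty =>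
    have h1 : (FreeGroup.of '' {i : β | i ∉ (∅ : Finset β)}) = Set.range FreeGroup.of := by
      simp
    rw [HI, h1, FreeGroup.closure_range_of]
    trivial
  | insert b J hb ih =>
    have h1 := ih fun b' hb' => h b' (Finset.mem_insert_of_mem hb')
    have h2 := kill_mem (b := b) h1
    rw [kill_eq (h b (Finset.mem_insert_self b J))] at h2
    convert h2 using 2
    ext i
    simp [not_or, and_comm]

theorem fix_HI {b : β} {I : Set β} (hb : b ∉ I) {s : MulAut (FreeGroup β)} (hs : s ∈ SS b)
    {w : FreeGroup β} (hw : w ∈ HI I) : s w = w := by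
  have h1 : HI I ≤ MonoidHom.eqLocus (s : FreeGroup β ≃* FreeGroup β).toMonoidHom
      (MonoidHom.id _) := by
    unfold HI
    rw [Subgroup.closure_le]
    rintro _ ⟨i, hi, rfl⟩
    change s (FreeGroup.of i) = FreeGroup.of i
    exact SS_fix b i (fun h => hb (h ▸ hi)) hs
  exact h1 hw

omit [DecidableEq β] in
theorem mul_conj (s : MulAut (FreeGroup β)) (w : FreeGroup β) :
    s * MulAut.conj w = MulAut.conj (s w) * s := by
  apply MulEquiv.ext
  intro v
  simp only [MulAut.mul_apply, MulAut.conj_apply, map_mul, map_inv]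

/-- The inner automorphisms given by a standard free factor are a centralizer. -/
theorem centralizer_SI [Fintype β] (hβ : ∀ b : β, ∃ c d : β, c ≠ b ∧ d ≠ b ∧ c ≠ d)
    (I : Finset β) (hI : ∃ b, b ∉ I) :
    Subgroup.centralizer (⋃ b ∈ (Finset.univ \ I : Finset β), SS b) =
      (HI (I : Set β)).map MulAut.conj := by
  apply le_antisymm
  · intro α hα
    rw [Subgroup.mem_centralizer_iff] at hα
    have h1 : ∀ b, b ∉ I → ∃ u ∈ HI {i | i ≠ b}, α = MulAut.conj u := fun b hb =>
      conj_of_SS b (hβ b) α fun s hs =>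
        (hα s (Set.mem_biUnion (by simpa using hb) hs)).symm
    obtain ⟨b₀, hb₀⟩ := hI
    obtain ⟨c, d, -, -, hcd⟩ := hβ b₀
    obtain ⟨u, hu, rfl⟩ := h1 b₀ hb₀
    refine ⟨u, ?_, rfl⟩
    have h2 := mem_HI_of (Finset.univ \ I) u fun b hb => by
      obtain ⟨v, hv, h3⟩ := h1 b (by simpa using hb)
      rw [conj_injective hcd h3]
      exact hv
    simpa using h2
  · rintro _ ⟨w, hw, rfl⟩
    rw [Subgroup.mem_centralizer_iff]
    intro s hs
    simp only [Finset.mem_sdiff, Finset.mem_univ, true_and, Set.mem_iUnion, exists_prop] at hs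
    obtain ⟨b, hb, hs⟩ := hs
    rw [mul_conj, fix_HI (I := (I : Set β)) (by simpa using hb) hs hw]

end Pool.Agent.H16.Inn
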