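import Mathlib

/-!
# Automorphisms of `G * ℤ` commuting with the twists of the stable letter

`P G = G * ⟨t⟩`, written as an HNN extension with trivial associated subgroups.  If the centre of
`G` is trivial and `G ≠ 1`, then the automorphisms of `P G` which commute with `θ : t ↦ t⁻¹` and with
all `R h : t ↦ t h` (`h ∈ G`) are the conjugations by the elements of `G`.
-/

set_option autoImplicit false

open HNNExtension

namespace Pool.Agent.H16.Inn

universe u

variable {G : Type u} [Group G]

variable (G) in
/-- The free product `G * ℤ`. -/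
abbrev P : Type u := HNNExtension G ⊥ ⊥ (MulEquiv.refl _)

/-- The element `g t^{u₁} a₁ t^{u₂} a₂ ⋯`. -/
def ev (g : G) (l : List (ℤˣ × G)) : P G :=
  of g * (l.map (fun x => t ^ (x.1 : ℤ) * of x.2)).prod

/-- Reduced words. -/
def Red (l : List (ℤˣ × G)) : Prop := l.IsChain (fun a b => a.2 = 1 → a.1 = b.1)

theorem ev_nil (g : G) : ev g [] = of g := by simp [ev]

theorem ev_cons (g : G) (x : ℤˣ × G) (l : List (ℤˣ × G)) :
    ev g (x :: l) = of g * t ^ (x.1 : ℤ) * ev x.2 l := by
  simp [ev, mul_assoc]

theorem of_mul_ev (h g : G) (l : List (ℤˣ × G)) : of h * ev g l = ev (h * g) l := by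
  simp [ev, mul_assoc]

theorem toSubgroup_bot (u : ℤˣ) : toSubgroup (⊥ : Subgroup G) ⊥ u = ⊥ := by
  rcases Int.units_eq_one_or u with rfl | rfl <;> rfl

variable (G) in
/-- The full transversal. -/
def tv : NormalWord.TransversalPair G ⊥ ⊥ where
  set := fun _ => Set.univ
  compl := fun u => by
    rw [toSubgroup_bot]
    exact Subgroup.isComplement_singleton_univ

/-- The normal word of a reduced word. -/
def nw (g : G) (l : List (ℤˣ × G)) (hl : Red l) : NormalWord (tv G) where
  head := g
  toList := l
  chain := by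
    refine List.IsChain.imp ?_ hl
    intro a b h h'
    rw [toSubgroup_bot, Subgroup.mem_bot] at h'
    exact h h'
  mem_set := fun _ _ _ => Set.mem_univ _

theorem nw_prod (g : G) (l : List (ℤˣ × G)) (hl : Red l) :
    (nw g l hl).prod (MulEquiv.refl _) = ev g l := rfl

theorem ev_inj {g g' : G} {l l' : List (ℤˣ × G)} (hl : Red l) (hl' : Red l')
    (h : ev g l = ev g' l') : g = g' ∧ l = l' := by
  have h1 : nw g l hl = nw g' l' hl' := by
    apply NormalWord.prod_injective (MulEquiv.refl _) (tv G)
    exact h
  have h2 := congrArg (fun w : NormalWord (tv G) => w.head) h1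
  have h3 := congrArg (fun w : NormalWord (tv G) => w.toList) h1
  exact ⟨h2, h3⟩

theorem ev_surj (p : P G) : ∃ g l, Red l ∧ ev g l = p := by
  obtain ⟨w, hw⟩ := (NormalWord.equiv (MulEquiv.refl _) (tv G)).symm.surjective p
  refine ⟨w.head, w.toList, ?_, hw⟩
  refine List.IsChain.imp ?_ w.chain
  intro a b h h'
  apply h
  rw [toSubgroup_bot, Subgroup.mem_bot]
  exact h'

/-! ### The twists -/

/-- Endomorphisms fixing `G`. -/
def en (x : P G) : P G →* P G :=
  lift of x (fun a => by
    have ha : (a : G) = 1 := Subgroup.mem_bot.1 a.2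
    have ha' : ((MulEquiv.refl (⊥ : Subgroup G) a : (⊥ : Subgroup G)) : G) = 1 := ha
    rw [ha, ha', map_one, mul_one, one_mul])

@[simp] theorem en_of (x : P G) (g : G) : en x (of g) = of g := lift_of _ _ _ _

@[simp] theorem en_t (x : P G) : en x t = x := lift_t _ _ _

theorem en_comp (x y : P G) : (en x).comp (en y) = en (en x y) := by
  apply hom_ext
  · ext g
    simp
  · simp

theorem en_t_eq : en (t : P G) = MonoidHom.id _ := by
  apply hom_ext
  · ext g
    simp
  · simp

variable (G) in
/-- `t ↦ t⁻¹`. -/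
def th : MulAut (P G) :=
  MonoidHom.toMulEquiv (en t⁻¹) (en t⁻¹)
    (by rw [en_comp, map_inv, en_t, inv_inv, en_t_eq])
    (by rw [en_comp, map_inv, en_t, inv_inv, en_t_eq])

theorem th_apply (p : P G) : th G p = en t⁻¹ p := rfl

/-- `t ↦ t h`. -/
def Rr (h : G) : MulAut (P G) :=
  MonoidHom.toMulEquiv (en (t * of h)) (en (t * of h⁻¹))
    (by rw [en_comp, map_mul, en_t, en_of, mul_assoc, ← map_mul, inv_mul_cancel, map_one, mul_one,
      en_t_eq])
    (by rw [en_comp, map_mul, en_t, en_of, mul_assoc, ← map_mul, mul_inv_cancel, map_one, mul_one,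
      en_t_eq])

theorem Rr_apply (h : G) (p : P G) : Rr h p = en (t * of h) p := rfl

theorem Rr_mul (h h' : G) : Rr (h * h') = Rr h * Rr h' := by
  apply MulEquiv.ext
  intro p
  have h1 : en (t * of h) (t * of h') = t * of (h * h') := by
    rw [map_mul, en_t, en_of, map_mul, mul_assoc]
  rw [MulAut.mul_apply, Rr_apply, Rr_apply, Rr_apply, ← MonoidHom.comp_apply, en_comp, h1]

theorem Rr_one : Rr (1 : G) = 1 := by
  apply MulEquiv.ext
  intro p
  rw [Rr_apply, map_one, mul_one, en_t_eq]
  rfl

/-! ### The action on words -/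

theorem th_ev (g : G) (l : List (ℤˣ × G)) :
    th G (ev g l) = ev g (l.map fun x => (-x.1, x.2)) := by
  induction l generalizing g with
  | nil => simp [ev_nil, th_apply]
  | cons x l ih =>
    rw [ev_cons, map_mul, map_mul, ih, List.map_cons, ev_cons, map_zpow]
    simp [th_apply]

theorem Red.neg {l : List (ℤˣ × G)} (hl : Red l) : Red (l.map fun x => (-x.1, x.2)) := by
  unfold Red at *
  rw [List.isChain_map]
  refine List.IsChain.imp ?_ hl
  intro a b h h'
  exact congrArg Neg.neg (h h')

theorem eq_of_of_th {p : P G} (hp : th G p = p) : ∃ g, p = of g := by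
  obtain ⟨g, l, hl, rfl⟩ := ev_surj p
  rw [th_ev] at hp
  obtain ⟨-, h2⟩ := ev_inj hl.neg hl hp
  cases l with
  | nil => exact ⟨g, ev_nil g⟩
  | cons x l =>
    exfalso
    rw [List.map_cons, List.cons.injEq, Prod.ext_iff] at h2
    have h3 := h2.1.1
    simp only at h3
    rcases Int.units_eq_one_or x.1 with h4 | h4 <;> rw [h4] at h3 <;> exact absurd h3 (by decide)

/-- The correction before a letter. -/
def cr (h : G) : List (ℤˣ × G) → G
  | [] => 1
  | x :: _ => if x.1 = 1 then 1 else h⁻¹

/-- The transformed word. -/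
def tr (h : G) : List (ℤˣ × G) → List (ℤˣ × G)
  | [] => []
  | x :: l => (x.1, (if x.1 = 1 then h else 1) * x.2 * cr h l) :: tr h l

theorem Rr_ev (h g : G) (l : List (ℤˣ × G)) :
    Rr h (ev g l) = ev (g * cr h l) (tr h l) := by
  induction l generalizing g with
  | nil => simp [ev_nil, Rr_apply, cr, tr]
  | cons x l ih =>
    rw [ev_cons, map_mul, map_mul, ih, tr, ev_cons, map_zpow, Rr_apply, Rr_apply, en_of, en_t, cr]
    rcases Int.units_eq_one_or x.1 with h4 | h4
    · rw [h4, if_pos rfl, if_pos rfl]
      simp only [Units.val_one, zpow_one, mul_one]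
      rw [mul_assoc (of g), mul_assoc, mul_assoc, of_mul_ev, mul_assoc]
    · rw [h4, if_neg (by decide), if_neg (by decide)]
      simp only [Units.val_neg, Units.val_one, zpow_neg, zpow_one, mul_inv_rev, one_mul, map_mul,
        map_inv, mul_assoc]

theorem Red.tr {l : List (ℤˣ × G)} (hl : Red l) (h : G) : Red (tr h l) := by
  induction l with
  | nil => exact List.isChain_nil
  | cons x l ih =>
    cases l with
    | nil => exact List.isChain_singleton _
    | cons y l =>
      unfold Red at hl ih ⊢
      rw [List.isChain_cons_cons] at hl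
      have h1 := ih hl.2
      rw [Inn.tr] at h1 ⊢
      rw [Inn.tr, List.isChain_cons_cons]
      refine ⟨fun h2 => ?_, h1⟩
      simp only [cr] at h2 ⊢
      rcases Int.units_eq_one_or x.1 with h4 | h4 <;> rcases Int.units_eq_one_or y.1 with h5 | h5
      · rw [h4, h5]
      · rw [h4, h5, if_pos rfl, if_neg (by decide)] at h2
        have h3 : x.2 = 1 := by
          have := congrArg (fun z => h⁻¹ * z * h) h2
          simpa [mul_assoc] using this
        exact hl.1 h3
      · rw [h4, h5, if_pos rfl, if_neg (by decide), one_mul, mul_one] at h2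
        exact hl.1 h2
      · rw [h4, h5]

/-- Multiplication of the last entry. -/
def ml (y : G) : List (ℤˣ × G) → List (ℤˣ × G)
  | [] => []
  | [x] => [(x.1, x.2 * y)]
  | x :: x' :: l => x :: ml y (x' :: l)

theorem ev_ml (y g : G) (x : ℤˣ × G) (l : List (ℤˣ × G)) :
    ev g (x :: l) * of y = ev g (ml y (x :: l)) := by
  induction l generalizing g x with
  | nil => simp [ml, ev_cons, ev_nil, mul_assoc]
  | cons x' l ih =>
    rw [ev_cons, mul_assoc, ih, ml, ev_cons]

theorem ml_cons_cons (y : G) (x x' : ℤˣ × G) (l : List (ℤˣ × G)) :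
    ml y (x :: x' :: l) = x :: ml y (x' :: l) := rfl

theorem ml_head (y : G) (x : ℤˣ × G) (l : List (ℤˣ × G)) :
    ∃ z l', ml y (x :: l) = z :: l' ∧ z.1 = x.1 := by
  cases l with
  | nil => exact ⟨_, _, rfl, rfl⟩
  | cons x' l => exact ⟨_, _, rfl, rfl⟩

theorem Red.ml {l : List (ℤˣ × G)} (hl : Red l) (y : G) : Red (ml y l) := by
  induction l with
  | nil => exact List.isChain_nil
  | cons x l ih =>
    cases l with
    | nil => exact List.isChain_singleton _
    | cons x' l =>
      unfold Red at hl ih ⊢
      rw [List.isChain_cons_cons] at hl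
      have h1 := ih hl.2
      rw [ml_cons_cons]
      obtain ⟨z, l', h2, h3⟩ := ml_head y x' l
      rw [h2] at h1 ⊢
      rw [List.isChain_cons_cons]
      exact ⟨fun h4 => (hl.1 h4).trans h3.symm, h1⟩

/-! ### The centre -/

/-- The centre of `G * ℤ` is trivial if `G ≠ 1`. -/
theorem eq_one_of_comm {h : G} (hh : h ≠ 1) {p : P G} (h1 : of h * p = p * of h)
    (h2 : t * p = p * t) : p = 1 := by
  obtain ⟨g, l, hl, rfl⟩ := ev_surj p
  cases l with
  | cons x l =>
    exfalso
    rw [of_mul_ev, ev_ml] at h1
    have h3 := (ev_inj hl (hl.ml h) h1).1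
    exact hh (by simpa using h3)
  | nil =>
    rw [ev_nil] at h2 ⊢
    have h3 : ev (1 : G) [((1 : ℤˣ), g)] = ev g [((1 : ℤˣ), (1 : G))] := by
      rw [ev_cons, ev_cons, ev_nil, ev_nil]
      simpa using h2
    have h4 := (ev_inj (List.isChain_singleton _) (List.isChain_singleton _) h3).1
    rw [← h4, map_one]

/-! ### The centralizer -/

/-- The main computation. -/
theorem conj_of_comm (hG : ∀ g : G, (∀ h, h * g = g * h) → g = 1) (hne : ∃ h : G, h ≠ 1)
    (α : MulAut (P G)) (hθ : α * th G = th G * α) (hR : ∀ h : G, α * Rr h = Rr h * α) :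
    ∃ u : G, α = MulAut.conj (of u) := by
  have hθ' : ∀ p, α (th G p) = th G (α p) := fun p => by
    rw [← MulAut.mul_apply, hθ, MulAut.mul_apply]
  have hR' : ∀ h p, α (Rr h p) = Rr h (α p) := fun h p => by
    rw [← MulAut.mul_apply, hR, MulAut.mul_apply]
  have hy : ∀ h : G, ∃ y : G, α (of h) = of y := by
    intro h
    apply eq_of_of_th
    rw [← hθ', th_apply, en_of]
  choose y hy using hy
  obtain ⟨h, hh⟩ := hne
  obtain ⟨g, l, hl, hg⟩ := ev_surj (α t)
  have key : ∀ h : G, ev (g * cr h l) (tr h l) = ev g l * of (y h) := by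
    intro h
    rw [← Rr_ev, hg, ← hR', Rr_apply, en_t, map_mul, hy]
  cases l with
  | nil =>
    exfalso
    have h1 : ∀ p : P G, ∃ g, α p = of g := by
      intro p
      induction p using HNNExtension.induction_on with
      | of g => exact ⟨_, hy g⟩
      | t => exact ⟨g, by rw [← hg, ev_nil]⟩
      | mul p q hp hq =>
        obtain ⟨a, ha⟩ := hp
        obtain ⟨b, hb⟩ := hq
        exact ⟨a * b, by rw [map_mul, ha, hb, map_mul]⟩
      | inv p hp =>
        obtain ⟨a, ha⟩ := hp
        exact ⟨a⁻¹, by rw [map_inv, ha, map_inv]⟩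
    obtain ⟨a, ha⟩ := h1 (α⁻¹ t)
    have h2 : (t : P G) = of a := by
      rw [← ha, MulAut.apply_inv_self]
    have h3 : ev (1 : G) [((1 : ℤˣ), (1 : G))] = ev a [] := by
      rw [ev_cons, ev_nil, ev_nil]
      simpa using h2
    have h4 := (ev_inj (List.isChain_singleton _) List.isChain_nil h3).2
    exact absurd h4 (by simp)
  | cons x l =>
    have key2 : ∀ h : G, g * cr h (x :: l) = g ∧ tr h (x :: l) = ml (y h) (x :: l) := by
      intro h
      have h1 := key h
      rw [ev_ml] at h1
      exact ev_inj (hl.tr h) (hl.ml _) h1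
    have hx : x.1 = 1 := by
      by_contra hx
      have h1 := (key2 h).1
      rw [cr, if_neg hx] at h1
      exact hh (by simpa using h1)
    cases l with
    | cons x' l =>
      exfalso
      have key3 : ∀ h : G, h * x.2 * cr h (x' :: l) = x.2 := by
        intro h
        have h1 := (key2 h).2
        rw [ml_cons_cons, tr, List.cons.injEq, if_pos hx, Prod.ext_iff] at h1
        exact h1.1.2
      by_cases hx' : x'.1 = 1
      · have h1 := key3 h
        rw [cr, if_pos hx'] at h1
        exact hh (by simpa using h1)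
      · have h2 : x.2 = 1 := by
          apply hG
          intro h
          have h1 := key3 h
          rw [cr, if_neg hx', mul_inv_eq_iff_eq_mul] at h1
          exact h1
        unfold Red at hl
        rw [List.isChain_cons_cons] at hl
        exact hx' ((hl.1 h2).symm.trans hx)
    | nil =>
      have hg' : α t = of g * t * of x.2 := by
        rw [← hg, ev_cons, ev_nil, hx]
        simp
      have h1 : α (th G t) = (α t)⁻¹ := by
        rw [th_apply, en_t, map_inv]
      rw [hθ', hg'] at h1
      have h2 : ev g [((-1 : ℤˣ), x.2)] = ev x.2⁻¹ [((-1 : ℤˣ), g⁻¹)] := by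
        rw [ev_cons, ev_cons, ev_nil, ev_nil]
        rw [th_apply, map_mul, map_mul, en_of, en_of, en_t] at h1
        simpa [mul_assoc] using h1
      have h3 := (ev_inj (List.isChain_singleton _) (List.isChain_singleton _) h2).1
      have h4 : x.2 = g⁻¹ := by rw [h3, inv_inv]
      rw [h4] at hg'
      refine ⟨g, ?_⟩
      have h5 : ∀ h : G, y h = g * h * g⁻¹ := by
        intro h
        have h6 : Rr h (α t) = α t * of (y h) := by
          rw [← hR', Rr_apply, en_t, map_mul, hy]
        rw [hg', Rr_apply, map_mul, map_mul, en_of, en_of, en_t] at h6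
        have h7 : of h * of g⁻¹ = (of g⁻¹ * of (y h) : P G) := by
          have := congrArg (fun z => t⁻¹ * of g⁻¹ * z) h6
          simpa [mul_assoc] using this
        rw [← map_mul, ← map_mul] at h7
        have h8 := of_injective _ h7
        rw [mul_assoc, h8]
        simp
      apply MulEquiv.ext
      intro p
      have h9 : (α : P G ≃* P G).toMonoidHom = (MulAut.conj (of g) : P G ≃* P G).toMonoidHom := by
        apply hom_ext
        · ext h
          simp [hy, h5]
        · simp [hg']
      exact DFunLike.congr_fun h9 p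

end Pool.Agent.H16.Inn
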