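import Mathlib

/-!
# Definable subsets of groups
-/

set_option autoImplicit false

open FirstOrder Set

namespace Pool.Agent.H16.Inn

universe u

/-- The function symbols of the language of groups. -/
inductive GrpFn : ℕ → Type
  | one : GrpFn 0
  | inv : GrpFn 1
  | mul : GrpFn 2

/-- The first-order language of groups: a constant, a unary and a binary function symbol. -/
def LGrp : FirstOrder.Language.{0, 0} := ⟨GrpFn, fun _ => Empty⟩

/-- A group as a structure for the language of groups. -/
instance grpStructure (G : Type u) [Group G] : LGrp.Structure G where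
  funMap := fun f v => match f, v with
    | GrpFn.one, _ => 1
    | GrpFn.inv, v => (v 0)⁻¹
    | GrpFn.mul, v => v 0 * v 1
  RelMap := fun r _ => Empty.elim r

/-- A set of elements of the group `G` is definable if it is first-order definable in the language
of groups, with parameters from `G`. -/
def Dfn {G : Type u} [Group G] (S : Set G) : Prop := (Set.univ : Set G).Definable₁ LGrp S

variable {G : Type u} [Group G]

/-- Terms for products. -/
def tmul {α : Type*} (s s' : LGrp[[(Set.univ : Set G)]].Term α) :
    LGrp[[(Set.univ : Set G)]].Term α :=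
  Language.Term.func (Sum.inl GrpFn.mul : LGrp[[(Set.univ : Set G)]].Functions 2) ![s, s']

/-- Terms for inverses. -/
def tinv {α : Type*} (s : LGrp[[(Set.univ : Set G)]].Term α) :
    LGrp[[(Set.univ : Set G)]].Term α :=
  Language.Term.func (Sum.inl GrpFn.inv : LGrp[[(Set.univ : Set G)]].Functions 1) ![s]

/-- Terms for parameters. -/
def tcon {α : Type*} (g : G) : LGrp[[(Set.univ : Set G)]].Term α :=
  Language.Constants.term (LGrp.con (⟨g, trivial⟩ : (Set.univ : Set G)))

theorem real_mul {α : Type*} (v : α → G) (s s' : LGrp[[(Set.univ : Set G)]].Term α) :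
    (tmul s s').realize v = s.realize v * s'.realize v := rfl

theorem real_inv {α : Type*} (v : α → G) (s : LGrp[[(Set.univ : Set G)]].Term α) :
    (tinv s).realize v = (s.realize v)⁻¹ := rfl

theorem real_con {α : Type*} (v : α → G) (g : G) :
    (tcon g : LGrp[[(Set.univ : Set G)]].Term α).realize v = g := by
  simp [tcon]

theorem dfn_univ : Dfn (Set.univ : Set G) := by
  unfold Dfn Set.Definable₁
  simp

theorem Dfn.inter {S T : Set G} (hS : Dfn S) (hT : Dfn T) : Dfn (S ∩ T) := by
  unfold Dfn Set.Definable₁ at *
  exact Set.Definable.inter hS hT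

/-- Equalities of terms in one variable. -/
theorem dfn_eq (s s' : LGrp[[(Set.univ : Set G)]].Term (Fin 1)) :
    Dfn {g : G | s.realize (fun _ => g) = s'.realize (fun _ => g)} := by
  refine ⟨Language.Term.equal s s', ?_⟩
  ext v
  have hv : (fun _ => v 0) = v := by
    funext i
    rw [Subsingleton.elim i 0]
  simp only [Set.mem_ofPred_eq, Language.Formula.realize_equal, hv]

/-- The centralizer of an element. -/
theorem dfn_comm (s : G) : Dfn {g : G | s * g = g * s} := by
  have h := dfn_eq (G := G) (tmul (tcon s) (Language.Term.var 0))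
    (tmul (Language.Term.var 0) (tcon s))
  simpa only [real_mul, real_con, Language.Term.realize_var] using h

/-- The centralizer of a finite set. -/
theorem dfn_centralizer {S : Set G} (hS : S.Finite) :
    Dfn ((Subgroup.centralizer S : Subgroup G) : Set G) := by
  have h : ((Subgroup.centralizer S : Subgroup G) : Set G) = {g | ∀ s ∈ S, s * g = g * s} := by
    ext g
    exact Subgroup.mem_centralizer_iff
  rw [h]
  clear h
  induction S, hS using Set.Finite.induction_on with
  | empty =>
    convert dfn_univ (G := G)
    ext g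
    simp
  | @insert s S _ _ ih =>
    convert (dfn_comm s).inter ih
    ext g
    simp

/-- Images of two definable sets under a definable binary operation. -/
theorem Dfn.image2 {S T : Set G} (hS : Dfn S) (hT : Dfn T)
    (s : LGrp[[(Set.univ : Set G)]].Term (Fin 3)) (f : G → G → G)
    (hf : ∀ v : Fin 3 → G, s.realize v = f (v 1) (v 2)) :
    Dfn {g | ∃ x ∈ S, ∃ y ∈ T, g = f x y} := by
  have h1 : (Set.univ : Set G).Definable LGrp {v : Fin 3 → G | v 0 = f (v 1) (v 2)} := by
    refine ⟨Language.Term.equal (Language.Term.var 0) s, ?_⟩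
    ext v
    simp only [Set.mem_ofPred_eq, Language.Formula.realize_equal, Language.Term.realize_var, hf]
  have h2 : (Set.univ : Set G).Definable LGrp {v : Fin 3 → G | v 1 ∈ S} :=
    Set.Definable.preimage_comp (fun _ : Fin 1 => (1 : Fin 3)) hS
  have h3 : (Set.univ : Set G).Definable LGrp {v : Fin 3 → G | v 2 ∈ T} :=
    Set.Definable.preimage_comp (fun _ : Fin 1 => (2 : Fin 3)) hT
  have h4 := Set.Definable.image_comp ((h1.inter h2).inter h3) (fun _ : Fin 1 => (0 : Fin 3))
  unfold Dfn Set.Definable₁
  convert h4 using 1
  ext w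
  simp only [Set.mem_ofPred_eq, Set.mem_image, Set.mem_inter_iff]
  constructor
  · rintro ⟨x, hx, y, hy, h⟩
    refine ⟨![w 0, x, y], ⟨⟨h, hx⟩, hy⟩, ?_⟩
    funext i
    rw [Subsingleton.elim i 0]
    rfl
  · rintro ⟨v, ⟨⟨h, hx⟩, hy⟩, rfl⟩
    exact ⟨v 1, hx, v 2, hy, h⟩

theorem Dfn.mul {S T : Set G} (hS : Dfn S) (hT : Dfn T) :
    Dfn {g | ∃ x ∈ S, ∃ y ∈ T, g = x * y} :=
  hS.image2 hT (tmul (Language.Term.var 1) (Language.Term.var 2)) (fun x y => x * y)
    (fun v => by simp only [real_mul, Language.Term.realize_var])

/-- The union of the conjugates. -/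
theorem Dfn.conj {S : Set G} (hS : Dfn S) : Dfn {g | ∃ x ∈ S, ∃ y : G, g = y * x * y⁻¹} := by
  have h := hS.image2 dfn_univ (tmul (tmul (Language.Term.var 2) (Language.Term.var 1))
    (tinv (Language.Term.var 2))) (fun x y => y * x * y⁻¹)
    (fun v => by simp only [real_mul, real_inv, Language.Term.realize_var])
  simpa using h

/-- The set of the products of `k` elements. -/
def prods (S : Set G) (k : ℕ) : Set G := {g | ∃ l : List G, l.length = k ∧ (∀ x ∈ l, x ∈ S) ∧ g = l.prod}

theorem dfn_one : Dfn ({1} : Set G) := by
  have h := dfn_eq (G := G) (Language.Term.var 0) (tcon 1)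
  simpa only [real_con, Language.Term.realize_var, Set.ofPred_eq_eq_singleton] using h

theorem Dfn.prods {S : Set G} (hS : Dfn S) (k : ℕ) : Dfn (prods S k) := by
  induction k with
  | zero =>
    convert dfn_one (G := G)
    ext g
    simp only [Inn.prods, List.length_eq_zero_iff, Set.mem_ofPred_eq, Set.mem_singleton_iff]
    constructor
    · rintro ⟨l, rfl, -, rfl⟩
      rfl
    · rintro rfl
      exact ⟨[], rfl, by simp, rfl⟩
  | succ k ih =>
    convert hS.mul ih using 1
    ext g
    simp only [Inn.prods, Set.mem_ofPred_eq]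
    constructor
    · rintro ⟨l, hl, h, rfl⟩
      cases l with
      | nil => simp at hl
      | cons x l =>
        refine ⟨x, h x (by simp), l.prod, ⟨l, by simpa using hl, fun y hy => h y (by simp [hy]),
          rfl⟩, by simp⟩
    · rintro ⟨x, hx, _, ⟨l, hl, h, rfl⟩, rfl⟩
      refine ⟨x :: l, by simp [hl], ?_, by simp⟩
      intro y hy
      rcases List.mem_cons.1 hy with rfl | hy
      · exact hx
      · exact h y hy

end Pool.Agent.H16.Inn
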